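import Mathlib
import Pool.Agent.Lib.MP_9fb650_an.Main

set_option autoImplicit false

namespace Pool.Agent.Results.MP_9fb650_an.InfiniteAbelianSubgroup

/-- The group of unitary operators of `H`: linear isometric bijections of `H` onto itself. -/
abbrev UnitaryOp (H : Type) [NormedAddCommGroup H] [InnerProductSpace ℂ H] : Type := H ≃ₗᵢ[ℂ] H

/-- The coefficient functions of the unitary representations of the discrete group `G`. -/
def FourierStieltjes (G : Type) [Group G] : Set (G → ℂ) :=
  {f : G → ℂ | ∃ (H : Type) (_ : NormedAddCommGroup H) (_ : InnerProductSpace ℂ H)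
    (_ : CompleteSpace H) (π : G →* UnitaryOp H) (ξ η : H),
    ∀ g : G, f g = @inner ℂ H InnerProductSpace.toInner η (π g ξ)}

/-- The spectrum of `f` in the algebra of coefficient functions equals the closure of its range. -/
def NaturalSpectrum {G : Type} [Group G] (f : G → ℂ) : Prop :=
  {z : ℂ | ¬ ∃ h ∈ FourierStieltjes G, ∀ g : G, (f g - z) * h g = 1} = closure (Set.range f)

theorem FourierStieltjes_eq (G : Type) [Group G] :
    FourierStieltjes G = Pool.Agent.Lib.MP_9fb650_an.BSet G := by
  ext f
  constructor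
  · rintro ⟨H, i1, i2, i3, π, ξ, η, h⟩
    exact ⟨H, i1, i2, i3,
      (Unitary.linearIsometryEquiv (𝕜 := ℂ) (H := H)).symm.toMonoidHom.comp π, ξ, η, h⟩
  · rintro ⟨H, i1, i2, i3, π, ξ, η, h⟩
    exact ⟨H, i1, i2, i3,
      (Unitary.linearIsometryEquiv (𝕜 := ℂ) (H := H)).toMonoidHom.comp π, ξ, η, h⟩

/-- If the discrete group `G` is finite or contains an infinite commutative subgroup, then every
coefficient function of a unitary representation of `G` is a sum of two such coefficient
functions, each of whose spectrum equals the closure of its range. -/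
theorem result :
    ∀ (G : Type) [Group G],
      (Infinite G → ∃ A : Subgroup G, (A : Set G).Infinite ∧ ∀ a ∈ A, ∀ b ∈ A, a * b = b * a) →
      ∀ f ∈ FourierStieltjes G, ∃ f₁ ∈ FourierStieltjes G, ∃ f₂ ∈ FourierStieltjes G,
        NaturalSpectrum f₁ ∧ NaturalSpectrum f₂ ∧ f = f₁ + f₂ := by
  intro G _ hG f hf
  have hG' : Finite G ∨ ∃ A : Subgroup G, (A : Set G).Infinite ∧
      ∀ a ∈ A, ∀ b ∈ A, a * b = b * a :=
    (finite_or_infinite G).imp id hG
  unfold NaturalSpectrum
  rw [FourierStieltjes_eq] at hf ⊢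
  exact Pool.Agent.Lib.MP_9fb650_an.main hG'
    ((Pool.Agent.Lib.MP_9fb650_an.mem_BSet f).mp hf)

end Pool.Agent.Results.MP_9fb650_an.InfiniteAbelianSubgroup
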